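import Pool.Agent.helper91.HZF.Spec

/-!
# Project HZF (MP_069684_lc): row FIN
-/

set_option autoImplicit false

namespace Pool.Agent.HZF

open Finset Pool.Agent.helper38.Neg Pool.Agent.helper55.NT Pool.Agent.LN

theorem FIN_old {n s : ℕ} (C : Circuit n s) (g : Gate (n + s)) (α : Fin n → Option Bool) (j : Fin (n + s)) :
    val3 (Circuit.snoc C g) α (Fin.castSucc j) = val3 C α j := by
  show Fin.snoc (α := fun _ => Option Bool) (val3 C α) (eval3 (val3 C α) g) (Fin.castSucc j) = val3 C α j
  exact Fin.snoc_castSucc _ _ _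

theorem FIN_new {n s : ℕ} (C : Circuit n s) (g : Gate (n + s)) (α : Fin n → Option Bool) :
    val3 (Circuit.snoc C g) α (Fin.last (n + s)) = eval3 (val3 C α) g := by
  show Fin.snoc (α := fun _ => Option Bool) (val3 C α) (eval3 (val3 C α) g) (Fin.last (n + s)) = _
  exact Fin.snoc_last _ _

theorem FIN_neg (n : ℕ) : ∀ t : ℕ, t ≤ n → ∃ C : Circuit n t,
    (∀ i : Fin n, ∃ j, ∀ α, val3 C α j = α i) ∧
    ∀ i : Fin n, (i : ℕ) < t → ∃ j, ∀ α, val3 C α j = not3 (α i) := by
  intro t
  induction t with
  | zero =>
    intro _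
    exact ⟨Circuit.nil, fun i => ⟨i, fun α => rfl⟩, fun i hi => absurd hi (Nat.not_lt_zero _)⟩
  | succ t ih =>
    intro ht
    obtain ⟨C, h1, h2⟩ := ih (by omega)
    obtain ⟨j0, hj0⟩ := h1 ⟨t, by omega⟩
    refine ⟨Circuit.snoc C (Gate.not j0), ?_, ?_⟩
    · intro i
      obtain ⟨j, hj⟩ := h1 i
      exact ⟨Fin.castSucc j, fun α => by rw [FIN_old, hj]⟩
    · intro i hi
      rcases Nat.lt_succ_iff_lt_or_eq.1 hi with h | h
      · obtain ⟨j, hj⟩ := h2 i h
        exact ⟨Fin.castSucc j, fun α => by rw [FIN_old, hj]⟩
      · refine ⟨Fin.last (n + t), fun α => ?_⟩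
        rw [FIN_new]
        show not3 (val3 C α j0) = not3 (α i)
        rw [hj0]
        congr 2
        exact Fin.ext h.symm

theorem FIN_key (n : ℕ) (L : List (Fn (n + n))) (r : ℕ) (hL : SL L r) (hr : r = 0) :
    ∃ C : Circuit n (n + L.length), ∀ f, Op L f → ∃ j, ∀ α : Fin n → Option Bool,
    (f (wd (loR α)) = true → val3 C α j = some true) ∧
      (f (wd (hiR α)) = false → val3 C α j = some false) := by
  have key : ∀ (L : List (Fn (n + n))) (C : Circuit n (n + L.length))
      (hC : ∀ f, Op L f → ∃ j, ∀ α : Fin n → Option Bool,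
        (f (wd (loR α)) = true → val3 C α j = some true) ∧
        (f (wd (hiR α)) = false → val3 C α j = some false))
      (g : Gate (n + (n + L.length))) (F : Fn (n + n))
      (_ : ∀ α : Fin n → Option Bool, (F (wd (loR α)) = true → eval3 (val3 C α) g = some true) ∧
        (F (wd (hiR α)) = false → eval3 (val3 C α) g = some false)),
      ∀ f, Op (F :: L) f → ∃ j, ∀ α : Fin n → Option Bool,
        (f (wd (loR α)) = true → val3 (Circuit.snoc C g) α j = some true) ∧
        (f (wd (hiR α)) = false → val3 (Circuit.snoc C g) α j = some false) := by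
    intro L C hC g F hF
    have hold : ∀ f, Op L f → ∃ j, ∀ α : Fin n → Option Bool,
        (f (wd (loR α)) = true → val3 (Circuit.snoc C g) α j = some true) ∧
        (f (wd (hiR α)) = false → val3 (Circuit.snoc C g) α j = some false) := by
      intro f hf
      obtain ⟨k, hk⟩ := hC f hf
      refine ⟨Fin.castSucc k, fun α => ?_⟩
      rw [FIN_old]
      exact hk α
    intro f hf
    rcases hf with hf | hf
    · rcases List.mem_cons.1 hf with rfl | hf
      · refine ⟨Fin.last (n + (n + L.length)), fun α => ?_⟩
        rw [FIN_new]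
        exact hF α
      · exact hold f (Or.inl hf)
    · exact hold f (Or.inr hf)
  induction hL with
  | nil =>
    obtain ⟨C, h1, h2⟩ := FIN_neg n n le_rfl
    refine ⟨C, ?_⟩
    rintro f (hf | ⟨i, rfl⟩)
    · simp at hf
    · refine Fin.addCases (fun i => ?_) (fun i => ?_) i
      · obtain ⟨j, hj⟩ := h1 i
        refine ⟨j, fun α => ⟨fun h => ?_, fun h => ?_⟩⟩
        · rw [hj]
          simpa [wd, loR] using h
        · rw [hj]
          simpa [wd, hiR] using h
      · obtain ⟨j, hj⟩ := h2 i i.2
        refine ⟨j, fun α => ⟨fun h => ?_, fun h => ?_⟩⟩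
        · rw [hj]
          have e : wd (loR α) (Fin.natAdd n i) = decide (α i = some false) := Fin.append_right _ _ _
          have h' : decide (α i = some false) = true := e.symm.trans h
          have : α i = some false := of_decide_eq_true h'
          rw [this]
          rfl
        · rw [hj]
          have e : wd (hiR α) (Fin.natAdd n i) = decide (α i ≠ some true) := Fin.append_right _ _ _
          have h' : decide (α i ≠ some true) = false := e.symm.trans h
          have : α i = some true := not_not.1 (of_decide_eq_false h')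
          rw [this]
          rfl
  | @const L r b _ ih =>
    obtain ⟨C, hC⟩ := ih hr
    refine ⟨Circuit.snoc C (Gate.const b), key L C hC (Gate.const b) _ (fun α => ⟨fun h => ?_, fun h => ?_⟩)⟩
    · show some b = some true
      exact congrArg some h
    · show some b = some false
      exact congrArg some h
  | @and L r u v _ hu hv ih =>
    obtain ⟨C, hC⟩ := ih hr
    obtain ⟨i, hi⟩ := hC u hu
    obtain ⟨j, hj⟩ := hC v hv
    refine ⟨Circuit.snoc C (Gate.and i j), key L C hC (Gate.and i j) _ (fun α => ⟨fun h => ?_, fun h => ?_⟩)⟩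
    · show and3 (val3 C α i) (val3 C α j) = some true
      simp only [Bool.and_eq_true] at h
      rw [(hi α).1 h.1, (hj α).1 h.2]
      rfl
    · show and3 (val3 C α i) (val3 C α j) = some false
      simp only [Bool.and_eq_false_iff] at h
      rcases h with h | h
      · rw [(hi α).2 h]
        rfl
      · rw [(hj α).2 h]
        rcases val3 C α i with _ | (_ | _) <;> rfl
  | @or L r u v _ hu hv ih =>
    obtain ⟨C, hC⟩ := ih hr
    obtain ⟨i, hi⟩ := hC u hu
    obtain ⟨j, hj⟩ := hC v hv
    refine ⟨Circuit.snoc C (Gate.or i j), key L C hC (Gate.or i j) _ (fun α => ⟨fun h => ?_, fun h => ?_⟩)⟩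
    · show or3 (val3 C α i) (val3 C α j) = some true
      simp only [Bool.or_eq_true] at h
      rcases h with h | h
      · rw [(hi α).1 h]
        rfl
      · rw [(hj α).1 h]
        rcases val3 C α i with _ | (_ | _) <;> rfl
    · show or3 (val3 C α i) (val3 C α j) = some false
      simp only [Bool.or_eq_false_iff] at h
      rw [(hi α).2 h.1, (hj α).2 h.2]
      rfl
  | @not L r u _ hu ih => omega

theorem FIN : FIN_stmt := fun n L hL => FIN_key n L 0 hL rfl

end Pool.Agent.HZF
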