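import Pool.Agent.helper91.HZF.Spec
import Pool.Agent.helper41.LN.GRO
import Pool.Agent.helper45.LN.SUB

/-!
# Project HZF (MP_069684_lc): row GRP
-/

set_option autoImplicit false

namespace Pool.Agent.HZF

open Finset Pool.Agent.helper38.Neg Pool.Agent.helper55.NT Pool.Agent.LN

theorem GRP_poly (p : Polynomial ℕ) : ∃ k : ℕ, ∀ n : ℕ, p.eval n ≤ (n + 2) ^ k := by
  induction p using Polynomial.induction_on' with
  | add p q hp hq =>
    obtain ⟨a, ha⟩ := hp
    obtain ⟨b, hb⟩ := hq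
    refine ⟨max a b + 1, fun n => ?_⟩
    rw [Polynomial.eval_add, pow_succ]
    have h1 : (n + 2) ^ a ≤ (n + 2) ^ max a b := Nat.pow_le_pow_right (by omega) (le_max_left _ _)
    have h2 : (n + 2) ^ b ≤ (n + 2) ^ max a b := Nat.pow_le_pow_right (by omega) (le_max_right _ _)
    have h3 := ha n
    have h4 := hb n
    have h5 : (n + 2) ^ max a b * 2 ≤ (n + 2) ^ max a b * (n + 2) := Nat.mul_le_mul_left _ (by omega)
    omega
  | monomial d c =>
    refine ⟨c + d, fun n => ?_⟩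
    rw [Polynomial.eval_monomial, pow_add]
    refine Nat.mul_le_mul ?_ (Nat.pow_le_pow_left (by omega) d)
    calc c ≤ 2 ^ c := Nat.lt_two_pow_self.le
      _ ≤ (n + 2) ^ c := Nat.pow_le_pow_left (by omega) c

theorem GRP_two (p : Polynomial ℕ) : ∃ k : ℕ, ∀ n : ℕ, p.eval n ≤ 2 ^ (k * lg n) := by
  obtain ⟨k, hk⟩ := GRP_poly p
  refine ⟨2 * k, fun n => (hk n).trans ?_⟩
  have h1 : n + 2 < 2 ^ (lg n + 1) := by
    unfold lg
    exact Nat.lt_pow_succ_log_self (by norm_num) _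
  have h2 := GRO_lg n
  calc (n + 2) ^ k ≤ (2 ^ (2 * lg n)) ^ k :=
        Nat.pow_le_pow_left (h1.le.trans (Nat.pow_le_pow_right (by norm_num) (by omega))) k
    _ = 2 ^ (2 * k * lg n) := by
        rw [← pow_mul]
        congr 1
        ring

theorem GRP (h : LBU_stmt) : GRP_stmt := by
  obtain ⟨δ, hδ, v0, hLB⟩ := h (1 / 2) (by norm_num)
  obtain ⟨t, ht⟩ := exists_nat_gt (1 / δ)
  refine ⟨4 * t, ?_⟩
  intro u hQ
  obtain ⟨p, hQ⟩ := hQ
  obtain ⟨k₁, hp⟩ := GRP_two p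
  set v1 := max v0 2 with hv1
  set B := 4 * v1 + 4 + 4 * (k₁ + 2) ^ t with hB
  refine ⟨B ^ 4, ?_⟩
  intro n
  set L := lg n with hL
  have hL1 : 1 ≤ L := GRO_lg n
  set v := min (u n) (Nat.sqrt (Nat.sqrt n) / 4) with hv
  have hvb : v ≤ v1 + ((k₁ + 2) * L) ^ t := by
    rcases lt_or_ge v v1 with hlt | hge
    · omega
    · have hv0 : v0 ≤ v := le_trans (le_max_left _ _) hge
      have hv2 : 2 ≤ v := le_trans (le_max_right _ _) hge
      have hvS : v ≤ Nat.sqrt (Nat.sqrt n) / 4 := min_le_right _ _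
      have hvu : v ≤ u n := min_le_left _ _
      have hS : Nat.sqrt (Nat.sqrt n) * Nat.sqrt (Nat.sqrt n) ≤ Nat.sqrt n := Nat.sqrt_le _
      have hS1 : 4 * v ≤ Nat.sqrt (Nat.sqrt n) := by omega
      have hS2 : 4 * v * (4 * v) ≤ Nat.sqrt n := le_trans (Nat.mul_le_mul hS1 hS1) hS
      have hvv : 2 * v ≤ v * v := Nat.mul_le_mul_right v hv2
      have hA : 2 * v ≤ Nat.sqrt n / 2 := by
        have : 4 * v ≤ Nat.sqrt n := by nlinarith
        omega
      have hBn : Nat.sqrt n / 2 + v ^ 2 ≤ Nat.sqrt n := by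
        have : 2 * v ^ 2 ≤ Nat.sqrt n := by nlinarith
        omega
      have hvM : v ≤ Nat.sqrt n := by nlinarith
      obtain ⟨s, hs, C, o, hC, hF⟩ := hQ n
      obtain ⟨C', o', hC', hLoc⟩ := GRO_circuit SUB C o hC hF
      have hmain := hLB v hv0 (Nat.sqrt n) (Nat.sqrt n / 2) hA hBn (GRO_U (Nat.sqrt n) (u n))
        (fun e he => by
          rw [GRO_mem] at he
          rw [Fin.lt_def]
          omega)
        (GRO_touch hv2 hvM hvu) (2 + s) 1 C' o' hC' hLoc (by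
          have hv1' : (1 : ℝ) ≤ (v : ℝ) := by exact_mod_cast le_trans (by norm_num) hv2
          have := Real.one_le_rpow hv1' (show (0 : ℝ) ≤ 1 - 1 / 2 by norm_num)
          simpa using this)
      have hs2 : 2 + s ≤ 2 ^ ((k₁ + 2) * L) := by
        have h3 : 2 ^ (k₁ * L) * 2 ^ (2 * L) = 2 ^ ((k₁ + 2) * L) := by
          rw [← pow_add]
          congr 1
          ring
        rw [← h3]
        have h5 : 2 ^ 2 ≤ 2 ^ (2 * L) := Nat.pow_le_pow_right (by norm_num) (by omega)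
        have h6 : 1 ≤ 2 ^ (k₁ * L) := Nat.one_le_pow _ _ (by norm_num)
        have h7 : s ≤ 2 ^ (k₁ * L) := hs.trans (hp n)
        nlinarith
      have h8 : (2 : ℝ) ^ ((v : ℝ) ^ δ) ≤ (2 : ℝ) ^ ((((k₁ + 2) * L : ℕ)) : ℝ) := by
        rw [Real.rpow_natCast]
        refine le_trans hmain ?_
        exact_mod_cast hs2
      have h9 : (v : ℝ) ^ δ ≤ (((k₁ + 2) * L : ℕ) : ℝ) :=
        (Real.rpow_le_rpow_left_iff (by norm_num)).1 h8
      have hvpos : (0 : ℝ) ≤ (v : ℝ) := Nat.cast_nonneg _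
      have h10 : (v : ℝ) ≤ ((((k₁ + 2) * L : ℕ)) : ℝ) ^ (1 / δ) := by
        have := Real.rpow_le_rpow (Real.rpow_nonneg hvpos δ) h9
          (show (0 : ℝ) ≤ 1 / δ by positivity)
        rw [← Real.rpow_mul hvpos] at this
        rwa [mul_one_div_cancel hδ.ne', Real.rpow_one] at this
      have hone : (1 : ℝ) ≤ (((k₁ + 2) * L : ℕ) : ℝ) := by
        have : 1 ≤ (k₁ + 2) * L := by nlinarith
        exact_mod_cast this
      have h11 : (v : ℝ) ≤ ((((k₁ + 2) * L : ℕ)) : ℝ) ^ (t : ℝ) :=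
        le_trans h10 (Real.rpow_le_rpow_of_exponent_le hone ht.le)
      rw [Real.rpow_natCast] at h11
      have h12 : v ≤ ((k₁ + 2) * L) ^ t := by exact_mod_cast h11
      omega
  have hfin := GRO_nat (v1 + ((k₁ + 2) * L) ^ t) (u n) n v hvb hv
  refine le_trans hfin ?_
  have e1 : 4 * (v1 + ((k₁ + 2) * L) ^ t) + 4 ≤ B * L ^ t := by
    have h4 : 1 ≤ L ^ t := Nat.one_le_pow _ _ hL1
    have h5 : ((k₁ + 2) * L) ^ t = (k₁ + 2) ^ t * L ^ t := mul_pow _ _ _
    rw [h5, hB]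
    nlinarith
  calc (4 * (v1 + ((k₁ + 2) * L) ^ t) + 4) ^ 4
      ≤ (B * L ^ t) ^ 4 := Nat.pow_le_pow_left e1 4
    _ = B ^ 4 * L ^ (4 * t) := by
        rw [mul_pow, ← pow_mul]
        congr 2
        ring

end Pool.Agent.HZF
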